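import Pool.Agent.Lib.MP_c22e22_co.V.Final

/-!
# The number of involutions with a given descent set is maximal for the odd positions
-/

set_option autoImplicit false

namespace Pool.Agent.Results.MP_c22e22_co.OddDescentsMaximal

/-- The descent set of a permutation `w` of `{1, …, n}`, written as a permutation of `Fin n`
(`i` in `{1, …, n}` is the element `i - 1` of `Fin n`): the set of all `i` with `1 ≤ i ≤ n - 1`
such that the value at the `i`-th position is larger than the value at the `(i + 1)`-st. -/
def Des {n : ℕ} (w : Equiv.Perm (Fin n)) : Finset ℕ :=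
  (Finset.Ico 1 n).filter fun i => ∃ (h1 : i - 1 < n) (h2 : i < n), w ⟨i, h2⟩ < w ⟨i - 1, h1⟩

/-- `delta n S` is the number of permutations `w` of `Fin n` with `w⁻¹ = w` (involutions, fixed
points allowed) whose descent set is `S`. -/
noncomputable def delta (n : ℕ) (S : Finset ℕ) : ℕ :=
  Nat.card {w : Equiv.Perm (Fin n) // w⁻¹ = w ∧ Des w = S}

/-- The odd elements of `{1, …, n - 1}`. -/
def oddSet (n : ℕ) : Finset ℕ := (Finset.Ico 1 n).filter fun i => Odd i

theorem delta_eq_delta (n : ℕ) (S : Finset ℕ) :
    delta n S = Pool.Agent.Lib.MP_c22e22_co.V.delta n S := by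
  unfold delta Pool.Agent.Lib.MP_c22e22_co.V.delta
  refine Nat.card_congr (Equiv.subtypeEquivRight fun w => ?_)
  have h : w⁻¹ = w ↔ w * w = 1 := by
    constructor
    · intro h
      nth_rewrite 1 [← h]
      exact inv_mul_cancel w
    · intro h
      exact inv_eq_of_mul_eq_one_left h
  rw [h]
  rfl

/-- For every `n ≥ 1` and every set `S` of positions in `{1, …, n - 1}`, there are at most as many
involutions of `{1, …, n}` with descent set `S` as there are with descent set the set of all odd
positions. -/
theorem result (n : ℕ) (hn : 1 ≤ n) (S : Finset ℕ) (hS : S ⊆ Finset.Ico 1 n) :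
    delta n S ≤ delta n (oddSet n) := by
  have h := Pool.Agent.Lib.MP_c22e22_co.V.final_delta n hn S hS
  have h1 : oddSet n = (Finset.Ico 1 n).filter (fun i => i % 2 = 1) := by
    unfold oddSet
    exact Finset.filter_congr fun i _ => Nat.odd_iff
  rw [delta_eq_delta, delta_eq_delta, h1]
  exact h

end Pool.Agent.Results.MP_c22e22_co.OddDescentsMaximal
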